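import Pool.Agent.H93.ES.Targets

/-!
# Row WIN of board es_modules (MP_c59857_nt): windows inside a block
-/

set_option autoImplicit false

namespace Pool.Agent.H42.ES

open Finset Pool.Agent.H18.MR Pool.Agent.H93.DE Pool.Agent.H6.N4D Pool.Agent.H93
  Pool.Agent.H93.ES

theorem norm_ee (x : ℝ) : ‖ee x‖ = 1 := by
  unfold ee
  exact Complex.norm_exp_ofReal_mul_I _

theorem ee_add (x y : ℝ) : ee (x + y) = ee x * ee y := by
  unfold ee
  rw [← Complex.exp_add]
  congr 1
  push_cast
  ring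

/-- the letters of the window -/
theorem ltr_eq {N : ℕ} [NeZero N] (lam : ℕ → ℝ) (i : ℕ) (k : ZMod N)
    (hlam : ∀ n, 1 ≤ n → lam n = 1 ∨ lam n = -1) (h1 : 1 ≤ i * N + k.val) {t : ℕ}
    (ht : k.val + t < N) : ltr (blk lam N i) k t = lam (i * N + k.val + t) := by
  have h2 : (k + (t : ZMod N)).val = k.val + t := by
    rw [ZMod.val_add, ZMod.val_natCast, Nat.add_mod_mod, Nat.mod_eq_of_lt ht]
  unfold ltr blk sg
  rw [h2, ← add_assoc]
  rcases hlam (i * N + k.val + t) (by omega) with h | h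
  · rw [h]
    simp
  · rw [h]
    have h3 : ¬ ((-1 : ℝ) = 1) := by norm_num
    simp [h3]

theorem ioc_range (n' L : ℕ) (h1 : 1 ≤ n') (f : ℕ → ℂ) :
    ∑ m ∈ Ioc (n' - 1) (n' - 1 + L), f m = ∑ t ∈ range L, f (n' + t) := by
  have h2 : Ioc (n' - 1) (n' - 1 + L) = Ico n' (n' + L) := by
    ext m
    simp only [mem_Ioc, mem_Ico]
    omega
  rw [h2, sum_Ico_eq_sum_range, Nat.add_sub_cancel_left]

theorem dvd_shift {N q : ℕ} (hq : q ∣ N) (i k t : ℕ) :
    (q ∣ i * N + k + t ↔ q ∣ k + t) := by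
  rw [add_assoc]
  exact (Nat.dvd_add_right (Dvd.dvd.mul_left hq i))

theorem pf_WIN : T_WIN := by
  intro N w i q _ lam α g k hi hlam hq hqN hk
  have hN : 1 ≤ N := NeZero.one_le
  have h1 : 1 ≤ i * N + k.val := by
    have : 1 * 1 ≤ i * N := Nat.mul_le_mul hi hN
    omega
  have hl : ∀ t ∈ range (2 ^ w), ltr (blk lam N i) k t = lam (i * N + k.val + t) := by
    intro t ht
    rw [mem_range] at ht
    exact ltr_eq lam i k hlam h1 (by omega)
  constructor
  · unfold EB.zz wm
    rw [ioc_range _ _ h1]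
    have h2 : ∑ t ∈ range (2 ^ w), (lam (i * N + k.val + t) : ℂ) *
        (EB.D q (i * N + k.val + t) : ℂ) * ee (-(α * ((i * N + k.val + t : ℕ) : ℝ))) *
        g (i * N + k.val + t) = ee (-(α * ((i * N + k.val : ℕ) : ℝ))) *
        ∑ t ∈ range (2 ^ w), (ltr (blk lam N i) k t : ℂ) *
          (kA q k.val α t * g (i * N + k.val + t)) := by
      rw [mul_sum]
      refine sum_congr rfl fun t ht => ?_
      rw [hl t ht]
      have h3 : EB.D q (i * N + k.val + t) = DR q (k.val + t) := by
        unfold EB.D DR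
        simp only [dvd_shift hqN]
      have h4 : -(α * ((i * N + k.val + t : ℕ) : ℝ)) =
          -(α * ((i * N + k.val : ℕ) : ℝ)) + -(α * t) := by
        push_cast
        ring
      unfold kA
      rw [h3, h4, ee_add]
      ring
    rw [h2, mul_div_assoc, norm_mul, norm_ee, one_mul]
    push_cast
    rfl
  · unfold EB.crq wm
    rw [sum_filter, ioc_range _ _ h1]
    have h2 : (∑ t ∈ range (2 ^ w), if q ∣ i * N + k.val + t then
        (lam (i * N + k.val + t) : ℂ) * ee (-(α * ((i * N + k.val + t : ℕ) : ℝ))) else 0) * q =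
        ee (-(α * ((i * N + k.val : ℕ) : ℝ))) *
        ∑ t ∈ range (2 ^ w), (ltr (blk lam N i) k t : ℂ) * kB q k.val α t := by
      rw [mul_sum, sum_mul]
      refine sum_congr rfl fun t ht => ?_
      rw [hl t ht]
      have h4 : -(α * ((i * N + k.val + t : ℕ) : ℝ)) =
          -(α * ((i * N + k.val : ℕ) : ℝ)) + -(α * t) := by
        push_cast
        ring
      unfold kB
      simp only [dvd_shift hqN]
      rw [h4, ee_add]
      split_ifs
      · ring
      · ring
    rw [h2, mul_div_assoc, norm_mul, norm_ee, one_mul]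
    push_cast
    rfl

end Pool.Agent.H42.ES
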